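import Mathlib

/-!
# The unordered representation function of order `h`: general lemmas
-/

set_option autoImplicit false

namespace Pool.Agent.H601

open Finset

/-- the number of multisets of `h` elements of `A` with sum `n` -/
noncomputable def rep (A : Set ℕ) (h n : ℕ) : ℕ :=
  Set.ncard {s : Multiset ℕ | Multiset.card s = h ∧ (∀ a ∈ s, a ∈ A) ∧ s.sum = n}

/-- multisets of `h` elements of a finite set -/
theorem msets_finite (F : Finset ℕ) (h : ℕ) :
    {s : Multiset ℕ | Multiset.card s = h ∧ ∀ a ∈ s, a ∈ F}.Finite ∧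
      {s : Multiset ℕ | Multiset.card s = h ∧ ∀ a ∈ s, a ∈ F}.ncard ≤ F.card ^ h := by
  classical
  have hsub : {s : Multiset ℕ | Multiset.card s = h ∧ ∀ a ∈ s, a ∈ F} ⊆
      ((Fintype.piFinset (fun _ : Fin h => F)).image
        (fun f => ((List.ofFn f : List ℕ) : Multiset ℕ)) : Finset (Multiset ℕ)) := by
    rintro s ⟨h1, h2⟩
    rw [Finset.mem_coe, Finset.mem_image]
    induction s using Quotient.inductionOn with
    | h l =>
      have h3 : l.length = h := h1
      subst h3
      refine ⟨l.get, ?_, ?_⟩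
      · rw [Fintype.mem_piFinset]
        intro i
        exact h2 _ (by simp)
      · simp
  constructor
  · exact (Finset.finite_toSet _).subset hsub
  · refine (Set.ncard_le_ncard hsub (Finset.finite_toSet _)).trans ?_
    rw [Set.ncard_coe_finset]
    refine Finset.card_image_le.trans ?_
    rw [Fintype.card_piFinset]
    simp

theorem reps_subset (A : Set ℕ) (h n : ℕ) :
    {s : Multiset ℕ | Multiset.card s = h ∧ (∀ a ∈ s, a ∈ A) ∧ s.sum = n} ⊆
      {s : Multiset ℕ | Multiset.card s = h ∧ ∀ a ∈ s, a ∈ Finset.range (n + 1)} := by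
  rintro s ⟨h1, _, h3⟩
  refine ⟨h1, fun a ha => ?_⟩
  rw [Finset.mem_range]
  have := Multiset.le_sum_of_mem ha
  omega

theorem reps_finite (A : Set ℕ) (h n : ℕ) :
    {s : Multiset ℕ | Multiset.card s = h ∧ (∀ a ∈ s, a ∈ A) ∧ s.sum = n}.Finite :=
  (msets_finite _ h).1.subset (reps_subset A h n)

theorem rep_le_pow (A : Set ℕ) (h n : ℕ) : rep A h n ≤ (n + 1) ^ h := by
  refine (Set.ncard_le_ncard (reps_subset A h n) (msets_finite _ h).1).trans ?_
  have := (msets_finite (Finset.range (n + 1)) h).2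
  rwa [Finset.card_range] at this

theorem rep_mono {A B : Set ℕ} (hAB : A ⊆ B) (h n : ℕ) : rep A h n ≤ rep B h n := by
  apply Set.ncard_le_ncard _ (reps_finite B h n)
  rintro s ⟨h1, h2, h3⟩
  exact ⟨h1, fun a ha => hAB (h2 a ha), h3⟩

/-- a symmetric set of `2 r` elements gives `r` representations of every order -/
theorem card_le_rep {A : Set ℕ} {h : ℕ} (hh : 2 ≤ h) (Q : Finset ℕ) (o M b : ℕ)
    (hQ : ∀ q ∈ Q, o + q ∈ A ∧ q ≤ M ∧ M - q ∈ Q) (hb : b ∈ A) :
    Q.card ≤ 2 * rep A h (2 * o + M + (h - 2) * b) := by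
  classical
  set f : ℕ → Multiset ℕ := fun q =>
    ({o + q} + {o + (M - q)}) + Multiset.replicate (h - 2) b with hf
  have h1 : (Q.image f).card ≤ rep A h (2 * o + M + (h - 2) * b) := by
    unfold rep
    rw [← Set.ncard_coe_finset]
    apply Set.ncard_le_ncard _ (reps_finite A h _)
    intro s hs
    rw [mem_coe, mem_image] at hs
    obtain ⟨q, hq, rfl⟩ := hs
    obtain ⟨a1, a2, a3⟩ := hQ q hq
    refine ⟨?_, ?_, ?_⟩
    · rw [hf]
      simp only [Multiset.card_add, Multiset.card_singleton, Multiset.card_replicate]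
      omega
    · intro a ha
      rw [hf] at ha
      simp only [Multiset.mem_add, Multiset.mem_singleton] at ha
      rcases ha with (rfl | rfl) | ha
      · exact a1
      · exact (hQ _ a3).1
      · rw [Multiset.eq_of_mem_replicate ha]; exact hb
    · rw [hf]
      simp only [Multiset.sum_add, Multiset.sum_singleton, Multiset.sum_replicate, smul_eq_mul]
      omega
  have h2 : Q.card ≤ 2 * (Q.image f).card := by
    apply Finset.card_le_mul_card_image_of_maps_to (f := f)
    · intro q hq
      exact mem_image_of_mem f hq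
    · intro s hs
      rw [mem_image] at hs
      obtain ⟨q, hq, rfl⟩ := hs
      have hsub : Q.filter (fun q' => f q' = f q) ⊆ {q, M - q} := by
        intro q' hq'
        rw [mem_filter] at hq'
        obtain ⟨b1, b2⟩ := hq'
        rw [mem_insert, mem_singleton]
        rw [hf] at b2
        simp only at b2
        have b3 := add_right_cancel b2
        have b4 : o + q' ∈ ({o + q} + {o + (M - q)} : Multiset ℕ) := by
          rw [← b3]; simp
        simp only [Multiset.mem_add, Multiset.mem_singleton] at b4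
        omega
      exact (card_le_card hsub).trans Finset.card_le_two
  omega

/-- the growth of bases -/
theorem count_of_basis {A : Set ℕ} {k n₀ : ℕ} (hA : ∀ n, n₀ ≤ n → 1 ≤ rep A k n) (N : ℕ) :
    N ≤ n₀ + (A ∩ Set.Iio N).ncard ^ k := by
  classical
  have hfin : (A ∩ Set.Iio N).Finite := (Set.finite_Iio N).subset Set.inter_subset_right
  set F := hfin.toFinset with hF
  have h1 : ∀ n ∈ Finset.Ico n₀ N, ∃ s : Multiset ℕ,
      (Multiset.card s = k ∧ ∀ a ∈ s, a ∈ F) ∧ s.sum = n := by
    intro n hn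
    rw [Finset.mem_Ico] at hn
    have h2 := hA n hn.1
    unfold rep at h2
    rw [Nat.one_le_iff_ne_zero, ← Nat.pos_iff_ne_zero, Set.ncard_pos (reps_finite A k n)] at h2
    obtain ⟨s, h3, h4, h5⟩ := h2
    refine ⟨s, ⟨h3, fun a ha => ?_⟩, h5⟩
    rw [hF, Set.Finite.mem_toFinset]
    have := Multiset.le_sum_of_mem ha
    exact ⟨h4 a ha, by rw [Set.mem_Iio]; omega⟩
  choose! s hs1 hs2 using h1
  have h2 : (Finset.Ico n₀ N).card ≤ {s : Multiset ℕ | Multiset.card s = k ∧ ∀ a ∈ s, a ∈ F}.ncard := by
    rw [← Finset.card_image_of_injOn (f := s) (s := Finset.Ico n₀ N), ← Set.ncard_coe_finset]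
    · apply Set.ncard_le_ncard _ (msets_finite F k).1
      intro x hx
      rw [mem_coe, mem_image] at hx
      obtain ⟨n, hn, rfl⟩ := hx
      exact hs1 n hn
    · intro n hn n' hn' heq
      rw [← hs2 n hn, ← hs2 n' hn', heq]
  have h3 := (msets_finite F k).2
  have h4 : F.card = (A ∩ Set.Iio N).ncard := by
    rw [hF, Set.ncard_eq_toFinset_card _ hfin]
  rw [h4] at h3
  rw [Nat.card_Ico] at h2
  omega

end Pool.Agent.H601
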